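import Pool.Agent.Run7.h27.MK.LawB

/-! Piece LAW of project MK (helper794): the one-shift law for short shifts, from ARC: assembly. -/

set_option autoImplicit false

namespace Pool.Agent.Run7.h27.MK

open Finset
open Pool.Agent.H807R2.Dav (ee norm_ee ee_add ee_int ee_add_int ee_zero)
open Pool.Agent.H373R2.T7 (lamz lamI lamzI Vz Vz_inv_small ev_L' lamz_nonneg Vz_pos)
open Pool.Agent.Run7.h794.MK

lemma wcs {ι : Type} (Ω : Finset ι) (p c : ι → ℝ) (hp : ∀ ω ∈ Ω, 0 ≤ p ω) (hp1 : ∑ ω ∈ Ω, p ω ≤ 1) (Q : ℝ) (hQ : 0 ≤ Q)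
    (h : ∑ ω ∈ Ω, p ω * c ω ^ 2 ≤ Q ^ 2) : ∑ ω ∈ Ω, p ω * |c ω| ≤ Q := by
  have h1 := Real.sum_mul_le_sqrt_mul_sqrt Ω (fun ω => √(p ω)) (fun ω => √(p ω) * |c ω|)
  have h2 : ∑ ω ∈ Ω, √(p ω) * (√(p ω) * |c ω|) = ∑ ω ∈ Ω, p ω * |c ω| := by
    apply sum_congr rfl
    intro ω hω
    rw [← mul_assoc, Real.mul_self_sqrt (hp ω hω)]
  have h3 : ∑ ω ∈ Ω, √(p ω) ^ 2 = ∑ ω ∈ Ω, p ω := by
    apply sum_congr rfl
    intro ω hω
    rw [Real.sq_sqrt (hp ω hω)]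
  have h4 : ∑ ω ∈ Ω, (√(p ω) * |c ω|) ^ 2 = ∑ ω ∈ Ω, p ω * c ω ^ 2 := by
    apply sum_congr rfl
    intro ω hω
    rw [mul_pow, Real.sq_sqrt (hp ω hω), sq_abs]
  rw [h2, h3, h4] at h1
  refine h1.trans ?_
  have h5 : √(∑ ω ∈ Ω, p ω) ≤ 1 := by
    rw [← Real.sqrt_one]
    exact Real.sqrt_le_sqrt hp1
  have h6 : √(∑ ω ∈ Ω, p ω * c ω ^ 2) ≤ Q := by
    rw [← Real.sqrt_sq hQ]
    exact Real.sqrt_le_sqrt h
  calc _ ≤ 1 * Q := mul_le_mul h5 h6 (Real.sqrt_nonneg _) zero_le_one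
    _ = Q := one_mul _

theorem t_LAW : S_ARC → S_LAW := by
  intro hARC T D B U
  set U' : ℕ := 2 * T + 4 * U + D + 6 with hU'
  obtain ⟨C', B₀', hA⟩ := hARC U'
  refine ⟨2 * U + 4, C' + 1, B₀' + 1, fun E => ?_⟩
  obtain ⟨X₀, hA⟩ := hA E
  obtain ⟨n1, hV⟩ := Vz_inv_small E
  obtain ⟨n2, hL⟩ := ev_L' (max (max (8 * ((B : ℝ) + 1) ^ 2) (2 ^ B₀')) (max ((B + 1) * 2 ^ C') (Real.log (B + 1))))
  refine ⟨max (max X₀ n1) (max n2 3), fun N hN z hz1 hz2 M hM1 hM2 ι Ω p Yv hp hp1 hY H hH Γ hΓc hΓ Kc hKc G hG => ?_⟩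
  have hN1 : X₀ ≤ N := le_trans (le_trans (le_max_left _ _) (le_max_left _ _)) hN
  have hN2 : n1 ≤ N := le_trans (le_trans (le_max_right _ _) (le_max_left _ _)) hN
  have hN3 := hL N (le_trans (le_trans (le_max_left _ _) (le_max_right _ _)) hN)
  have hN4 : 3 ≤ N := le_trans (le_trans (le_max_right _ _) (le_max_right _ _)) hN
  set L := Real.log N with hLd
  have hL1 : 8 * ((B : ℝ) + 1) ^ 2 ≤ L := ((le_max_left _ _).trans (le_max_left _ _)).trans hN3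
  have hL2 : (2 : ℝ) ^ B₀' ≤ L := ((le_max_right _ _).trans (le_max_left _ _)).trans hN3
  have hL3 : ((B : ℝ) + 1) * 2 ^ C' ≤ L := ((le_max_left _ _).trans (le_max_right _ _)).trans hN3
  have hL4 : Real.log ((B : ℝ) + 1) ≤ L := ((le_max_right _ _).trans (le_max_right _ _)).trans hN3
  have hB0 : (0 : ℝ) ≤ B := Nat.cast_nonneg _
  have hL8 : 8 ≤ L := by nlinarith
  have hL0 : 0 < L := by linarith
  have hL1' : 1 ≤ L := by linarith
  have hNr : (0 : ℝ) < N := by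
    have : (3 : ℝ) ≤ N := by exact_mod_cast hN4
    linarith
  have hNM : 1 ≤ M := by nlinarith
  have hMr : (0 : ℝ) < M := by exact_mod_cast hNM
  set X : ℕ := (B + 1) * N with hX
  have hXN : N ≤ X := Nat.le_mul_of_pos_left _ (by omega)
  have hXr : (X : ℝ) = (B + 1) * N := by rw [hX]; push_cast; ring
  have hlogX : Real.log X ≤ 2 * L := by
    rw [hXr, Real.log_mul (by linarith) hNr.ne']
    linarith
  have hlogX1 : L ≤ Real.log X := Real.log_le_log hNr (by exact_mod_cast hXN)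
  have hz : 1 ≤ z := by
    have : (1 : ℝ) ≤ z := (one_le_pow₀ hL1').trans hz1
    exact_mod_cast this
  have hHr : (0 : ℝ) < H := lt_of_lt_of_le (mul_pos (Real.rpow_pos_of_pos hNr _) (pow_pos hL0 _)) hH
  have hH1 : 1 ≤ H := by exact_mod_cast hHr
  -- the hypotheses of ARC
  have hzX : Real.log X ^ B₀' ≤ z := by
    refine le_trans ?_ hz1
    calc Real.log X ^ B₀' ≤ (2 * L) ^ B₀' := pow_le_pow_left₀ (by linarith) hlogX _
      _ = 2 ^ B₀' * L ^ B₀' := mul_pow _ _ _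
      _ ≤ L * L ^ B₀' := mul_le_mul_of_nonneg_right hL2 (by positivity)
      _ = L ^ (B₀' + 1) := by rw [pow_succ]; ring
  have hzX2 : (z : ℝ) ≤ Real.log X ^ E := hz2.trans (pow_le_pow_left₀ hL0.le hlogX1 _)
  have hHX : (X : ℝ) ^ (1 / 3 : ℝ) * Real.log X ^ C' ≤ H := by
    refine le_trans ?_ hH
    have h1 : (X : ℝ) ^ (1 / 3 : ℝ) ≤ (B + 1) * (N : ℝ) ^ (1 / 3 : ℝ) := by
      rw [hXr, Real.mul_rpow (by linarith) hNr.le]
      apply mul_le_mul_of_nonneg_right _ (by positivity)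
      calc ((B : ℝ) + 1) ^ (1 / 3 : ℝ) ≤ ((B : ℝ) + 1) ^ (1 : ℝ) :=
            Real.rpow_le_rpow_of_exponent_le (by linarith) (by norm_num)
        _ = _ := Real.rpow_one _
    have h2 : Real.log X ^ C' ≤ 2 ^ C' * L ^ C' := by
      rw [← mul_pow]
      exact pow_le_pow_left₀ (by linarith) hlogX _
    calc (X : ℝ) ^ (1 / 3 : ℝ) * Real.log X ^ C' ≤ ((B + 1) * (N : ℝ) ^ (1 / 3 : ℝ)) * (2 ^ C' * L ^ C') :=
          mul_le_mul h1 h2 (by have := hL0.le.trans hlogX1; positivity) (by positivity)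
      _ = (N : ℝ) ^ (1 / 3 : ℝ) * (((B + 1) * 2 ^ C') * L ^ C') := by ring
      _ ≤ (N : ℝ) ^ (1 / 3 : ℝ) * (L * L ^ C') := by gcongr
      _ = (N : ℝ) ^ (1 / 3 : ℝ) * L ^ (C' + 1) := by rw [pow_succ]; ring
  have hMX : 2 * X ≤ M := by
    refine le_trans ?_ hM1
    rw [hX]
    nlinarith
  have hmain := hA X (hN1.trans hXN) z hzX hzX2 M hMX
  set w : ℕ := M / H with hw
  set R : ℝ := L ^ D * (M / H) with hR
  set n : ℕ := ⌊R⌋₊ with hn
  set J : ℕ := ⌈2 * L ^ D + 1⌉₊ with hJ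
  have hLD : 1 ≤ L ^ D := one_le_pow₀ hL1'
  have hR0 : 0 ≤ R := by positivity
  have hJ1 : 2 * L ^ D + 1 ≤ J := Nat.le_ceil _
  have hJ2 : (J : ℝ) ≤ 4 * L ^ D := by
    have := Nat.ceil_lt_add_one (show 0 ≤ 2 * L ^ D + 1 by positivity)
    linarith
  have hwM : (M : ℝ) / H ≤ w + 1 := by
    rw [div_le_iff₀ hHr]
    have h1 : M < (M / H + 1) * H := by
      have h3 := Nat.div_add_mod M H
      have h4 := Nat.mod_lt M (show H > 0 by omega)
      nlinarith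
    have h2 : (M : ℝ) < ((w : ℝ) + 1) * H := by rw [hw]; exact_mod_cast h1
    exact h2.le
  have hJn : 2 * n + 1 ≤ J * (2 * w + 1) := by
    have h1 : (n : ℝ) ≤ R := Nat.floor_le hR0
    have h2 : R ≤ L ^ D * (w + 1) := mul_le_mul_of_nonneg_left hwM (by positivity)
    have h3 : (2 * n + 1 : ℝ) ≤ J * (2 * w + 1) := by
      have h4 : (2 * L ^ D + 1) * (2 * w + 1) ≤ (J : ℝ) * (2 * w + 1) :=
        mul_le_mul_of_nonneg_right hJ1 (by positivity)
      have h5 : (0 : ℝ) ≤ L ^ D * w := by positivity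
      have h6 : (0 : ℝ) ≤ w := by positivity
      nlinarith
    exact_mod_cast h3
  -- the function
  set g : ℕ → ℝ := fun k => ArithmeticFunction.vonMangoldt k - lamz z k with hg
  have hVz := hV N hN2 z hz hz2
  have hg2 : ∀ k ∈ Icc 1 X, g k ^ 2 ≤ 4 * L ^ 2 := by
    intro k hk
    rw [mem_Icc] at hk
    have h1 : ArithmeticFunction.vonMangoldt k ≤ 2 * L := by
      refine ArithmeticFunction.vonMangoldt_le_log.trans (le_trans ?_ hlogX)
      exact Real.log_le_log (by exact_mod_cast hk.1) (by exact_mod_cast hk.2)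
    have h2 : (0 : ℝ) ≤ ArithmeticFunction.vonMangoldt k := ArithmeticFunction.vonMangoldt_nonneg
    have h3 := lamz_nonneg z k
    have h4 : lamz z k ≤ L := by
      unfold lamz
      split_ifs
      · exact hVz
      · exact hL0.le
    have h5 : |g k| ≤ 2 * L := by
      rw [hg]
      simp only
      rw [abs_le]
      constructor <;> linarith
    calc g k ^ 2 = |g k| ^ 2 := (sq_abs _).symm
      _ ≤ (2 * L) ^ 2 := pow_le_pow_left₀ (abs_nonneg _) h5 2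
      _ = _ := by ring
  have hK : ∀ c : ℤ, ∑ s ∈ Icc (-(w : ℤ)) (w : ℤ), ‖DF g X M (c + s)‖ ^ 2 ≤ M * X / L ^ U' := by
    intro c
    refine (hmain c H hHX).trans ?_
    apply div_le_div_of_nonneg_left (by positivity) (by positivity)
    exact pow_le_pow_left₀ hL0.le hlogX1 _
  have hcore := core Ω p Yv hp hp1 N X M B w J n hNM hX hM1 (by omega) hY G g Kc hG
    (M * N * Kc * (2 * L * (B + 1))) (M * X / L ^ U') (4 * L ^ 2) (1 / L ^ (2 * U + 4)) R (by positivity) hg2 hK hJn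
    (Nat.lt_floor_add_one R) Γ hΓ (by
      rw [← Real.sqrt_mul (by positivity)]
      apply Real.sqrt_le_iff.2
      refine ⟨by positivity, ?_⟩
      rw [hXr]
      have h1 : (M : ℝ) * (N * Kc ^ 2) * (M * ((B + 1) * N * (4 * L ^ 2))) = (M * N * Kc * (2 * L)) ^ 2 * (B + 1) := by ring
      have h2 : (M * N * Kc * (2 * L * (B + 1))) ^ 2 = (M * N * Kc * (2 * L)) ^ 2 * ((B : ℝ) + 1) ^ 2 := by ring
      rw [h1, h2]
      apply mul_le_mul_of_nonneg_left _ (by positivity)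
      nlinarith)
  -- size of the arc term
  have hS : √(M * (N * Kc ^ 2)) * √(J * (M * X / L ^ U')) ≤ M * N * Kc * (2 * (B + 1)) / L ^ (T + 2 * U + 3) := by
    rw [← Real.sqrt_mul (by positivity)]
    apply Real.sqrt_le_iff.2
    refine ⟨by positivity, ?_⟩
    have e1 : L ^ U' = L ^ D * (L ^ (T + 2 * U + 3)) ^ 2 := by
      rw [← pow_mul, ← pow_add]
      congr 1
      omega
    have hP : 0 < L ^ (T + 2 * U + 3) := by positivity
    set P := L ^ (T + 2 * U + 3) with hPd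
    have hLD0 : 0 < L ^ D := by positivity
    have e2 : (M : ℝ) * (N * Kc ^ 2) * (J * (M * X / L ^ U')) = (J / L ^ D) * (B + 1) * ((M * N * Kc) ^ 2 / P ^ 2) := by
      rw [e1, hXr]
      field_simp
    have e3 : (M * N * Kc * (2 * (B + 1)) / P) ^ 2 = 4 * ((B : ℝ) + 1) ^ 2 * ((M * N * Kc) ^ 2 / P ^ 2) := by
      rw [div_pow]
      ring
    rw [e2, e3]
    apply mul_le_mul_of_nonneg_right _ (by positivity)
    have h1 : (J : ℝ) / L ^ D ≤ 4 := by
      rw [div_le_iff₀ hLD0]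
      exact hJ2
    have h2 : (1 : ℝ) ≤ (B : ℝ) + 1 := by linarith
    calc (J : ℝ) / L ^ D * (B + 1) ≤ 4 * (B + 1) := mul_le_mul_of_nonneg_right h1 (by linarith)
      _ ≤ _ := by nlinarith
  have hQ : ∑ ω ∈ Ω, p ω * (∑ n ∈ Icc 1 N, G n * gI g (n + Yv ω)) ^ 2 ≤ (Kc * (N / L ^ U)) ^ 2 := by
    have hM20 : (0 : ℝ) < (M : ℝ) ^ 2 := by positivity
    rw [← mul_le_mul_iff_of_pos_left hM20]
    refine hcore.trans ?_
    have hPU : 0 < L ^ U := by positivity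
    have hPT : 0 < L ^ T := by positivity
    have t1 : 1 / L ^ (2 * U + 4) * (M * N * Kc * (2 * L * (B + 1))) ^ 2 =
        (M * N * Kc) ^ 2 / (L ^ U) ^ 2 * (4 * ((B : ℝ) + 1) ^ 2 / L ^ 2) := by
      have : L ^ (2 * U + 4) = (L ^ U) ^ 2 * (L ^ 2) ^ 2 := by
        rw [← pow_mul, ← pow_mul, ← pow_add]
        congr 1
        omega
      rw [this]
      field_simp
      ring
    have t2 : (Γ.card : ℝ) * (√(M * (N * Kc ^ 2)) * √(J * (M * X / L ^ U'))) * (M * N * Kc * (2 * L * (B + 1))) ≤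
        (M * N * Kc) ^ 2 / (L ^ U) ^ 2 * (4 * ((B : ℝ) + 1) ^ 2 / L ^ 2) := by
      calc (Γ.card : ℝ) * (√(M * (N * Kc ^ 2)) * √(J * (M * X / L ^ U'))) * (M * N * Kc * (2 * L * (B + 1))) ≤
            L ^ T * (M * N * Kc * (2 * (B + 1)) / L ^ (T + 2 * U + 3)) * (M * N * Kc * (2 * L * (B + 1))) := by
              apply mul_le_mul_of_nonneg_right _ (by positivity)
              exact mul_le_mul hΓc hS (by positivity) (by positivity)
        _ = _ := by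
          have : L ^ (T + 2 * U + 3) = L ^ T * ((L ^ U) ^ 2 * L ^ 3) := by
            rw [← pow_mul, ← pow_add, ← pow_add]
            congr 1
            omega
          rw [this]
          field_simp
          ring
    have t3 : 8 * ((B : ℝ) + 1) ^ 2 / L ^ 2 ≤ 1 := by
      rw [div_le_one (by positivity)]
      nlinarith
    have t4 : (M : ℝ) ^ 2 * (Kc * (N / L ^ U)) ^ 2 = (M * N * Kc) ^ 2 / (L ^ U) ^ 2 := by
      field_simp
    rw [t4, t1]
    have t5 : (0 : ℝ) ≤ (M * N * Kc) ^ 2 / (L ^ U) ^ 2 := by positivity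
    calc (M * N * Kc) ^ 2 / (L ^ U) ^ 2 * (4 * ((B : ℝ) + 1) ^ 2 / L ^ 2) +
          (Γ.card : ℝ) * (√(M * (N * Kc ^ 2)) * √(J * (M * X / L ^ U'))) * (M * N * Kc * (2 * L * (B + 1))) ≤
          (M * N * Kc) ^ 2 / (L ^ U) ^ 2 * (4 * ((B : ℝ) + 1) ^ 2 / L ^ 2) +
          (M * N * Kc) ^ 2 / (L ^ U) ^ 2 * (4 * ((B : ℝ) + 1) ^ 2 / L ^ 2) := by linarith
      _ = (M * N * Kc) ^ 2 / (L ^ U) ^ 2 * (8 * ((B : ℝ) + 1) ^ 2 / L ^ 2) := by ring
      _ ≤ (M * N * Kc) ^ 2 / (L ^ U) ^ 2 * 1 := mul_le_mul_of_nonneg_left t3 t5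
      _ = _ := mul_one _
  have hfin := wcs Ω p (fun ω => ∑ n ∈ Icc 1 N, G n * gI g (n + Yv ω)) hp hp1 (Kc * (N / L ^ U)) (by positivity) hQ
  refine le_trans (le_of_eq ?_) hfin
  apply sum_congr rfl
  intro ω _
  congr 2
  apply sum_congr rfl
  intro n _
  congr 1
  unfold lamI lamzI gI
  split_ifs
  · rfl
  · ring

end Pool.Agent.Run7.h27.MK
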