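import Pool.Agent.Run7.h794.MK.Tra
import Pool.Agent.Run7.h27.MK.Gen

set_option autoImplicit false

/-!
Project MK, piece TUP: systems of linear forms whose constants are near the members of short families
(least residues modulo `q ≥ N^(1/3) log^C N`).
-/

namespace Pool.Agent.Run7.h27.MK

open Finset Filter
open Pool.Agent.N384.MQ
open Pool.Agent.N469.PT (OneLaw)
open Pool.Agent.N699.ST (AllS)
open Pool.Agent.Run7.h794.MK

/-- the distribution of a flat family -/
lemma rep_dis {ι : Type} {q : ℕ} [NeZero q] {S : Finset ι} (hS : S.Nonempty) (y : ι → ZMod q) :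
    Rep S (fun j => (y j).val) (range q) (dis S y) := by
  refine ⟨hS, fun j _ => mem_range.2 (ZMod.val_lt _), fun v _ => ?_⟩
  unfold dis
  rfl

open Classical in
/-- all linear forms with small slopes whose constants are near almost all vectors of members of short families -/
theorem short_all (hF : S_FLT) (s : ℕ) (hs : 1 ≤ s) (κ : Fin s → ℕ) (hκ : ∀ i, 1 ≤ κ i) (B A W U : ℕ) (ε : ℝ) (hε : 0 < ε) :
    ∃ V C N₀ : ℕ, ∀ N : ℕ, N₀ ≤ N → ∀ (q : Fin s → ℕ) [∀ i, NeZero (q i)],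
      (∀ i, (N : ℝ) ^ (1 / 3 : ℝ) * Real.log N ^ C ≤ q i) → (∀ i, q i ≤ B * N) →
      ∀ (ι : Fin s → Type) (S : ∀ i, Finset (ι i)) (y : ∀ i, ι i → ZMod (q i)),
      (∀ i, Flat (q i) (1 / Real.log N ^ V) (S i) (y i)) → ∀ c : Fin s → ℕ, (∀ i, c i ≤ B * N) →
      (((Fintype.piFinset S).filter fun n => ¬ ∀ t : Fin s → ℕ, (∀ i, (t i : ℝ) ≤ Real.log N ^ W) →
        AllS ε A U N (fun i => c i + κ i * (y i (n i)).val + t i)).card : ℝ) ≤
        (∏ i, ((S i).card : ℝ)) / Real.log N ^ U := by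
  obtain ⟨R, hR⟩ := gen_all s hs κ hκ B A W U ε hε
  choose V C hone using fun i => hF (κ i) (B + 1) B R (hκ i)
  obtain ⟨N₁, h1⟩ := hR (fun i N Ω p => ∃ q : ℕ, Ω = range q ∧ Msh (V i) (C i) B N q p) hone
  obtain ⟨Vt, hVt⟩ : ∃ Vt, Vt = ∑ i, V i := ⟨_, rfl⟩
  obtain ⟨Ct, hCt⟩ : ∃ Ct, Ct = ∑ i, C i := ⟨_, rfl⟩
  have hVi : ∀ i, V i ≤ Vt := fun i => by rw [hVt]; exact single_le_sum (fun _ _ => Nat.zero_le _) (mem_univ i)
  have hCi : ∀ i, C i ≤ Ct := fun i => by rw [hCt]; exact single_le_sum (fun _ _ => Nat.zero_le _) (mem_univ i)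
  obtain ⟨N₂, h2⟩ := eventually_atTop.mp ((tendsto_natCast_atTop_atTop (R := ℝ)).eventually
    (Real.tendsto_log_atTop.eventually_ge_atTop (2 : ℝ)))
  refine ⟨Vt, Ct, N₁ + N₂ + 4, fun N hN q _ hq1 hq2 ι S y hf c hc => ?_⟩
  have g2 := h2 N (by omega)
  have hL0 : 0 < Real.log N := by linarith
  have hL1 : 1 ≤ Real.log N := by linarith
  by_cases hS : ∀ i, (S i).Nonempty
  swap
  · push Not at hS
    obtain ⟨i, hi⟩ := hS
    have he : Fintype.piFinset S = ∅ := by
      rw [eq_empty_iff_forall_notMem]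
      intro n hn
      rw [Fintype.mem_piFinset] at hn
      have h9 := hn i
      rw [hi] at h9
      exact absurd h9 (notMem_empty _)
    rw [he, filter_empty, card_empty, Nat.cast_zero]
    have : 0 ≤ ∏ i, ((S i).card : ℝ) := prod_nonneg fun i _ => Nat.cast_nonneg _
    positivity
  have hMs : ∀ i, Msh (V i) (C i) B N (q i) (dis (S i) (y i)) := fun i => by
    apply msh_dis (hS i)
    · refine le_trans ?_ (hq1 i)
      apply mul_le_mul_of_nonneg_left _ (by positivity)
      exact pow_le_pow_right₀ hL1 (hCi i)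
    · exact hq2 i
    · apply Flat.mono' (hf i)
      exact one_div_le_one_div_of_le (by positivity) (pow_le_pow_right₀ hL1 (hVi i))
  exact h1 N (by omega) ι S (fun i j => (y i j).val) (fun i => range (q i)) (fun i => dis (S i) (y i))
    (fun i => ⟨q i, rfl, hMs i⟩) (fun i => rep_dis (hS i) (y i)) c hc

end Pool.Agent.Run7.h27.MK
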