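import Pool.Agent.Run7.h794.MK.All
import Pool.Agent.Run7.h27.MK.Laws
import Pool.Agent.Run7.h27.MK.Tup
import Pool.Agent.Run7.h27.MK.Pairs

set_option autoImplicit false

/-!
Project MK: imports for the hand-ins.
-/
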