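import Pool.Agent.Run7.h27.MK.LawA
import Pool.Agent.H373R2.T7.LamZ2
import Pool.Agent.H373R2.T7.Minor

/-! Piece LAW of project MK (helper794): the one-shift law for short shifts, from ARC. -/

set_option autoImplicit false

namespace Pool.Agent.Run7.h27.MK

open Finset
open Pool.Agent.H807R2.Dav (ee norm_ee ee_add ee_int ee_add_int ee_zero)
open Pool.Agent.H373R2.T7 (orth sq_expand conj_ee parseval_Icc lamz lamI lamzI Vz)
open Pool.Agent.Run7.h794.MK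

/-- Splitting the double sum: far differences and differences in the arcs. -/
lemma split_sum (M : ℕ) (a : ℕ → ℝ) (ha : ∀ r, 0 ≤ a r) (φ : ℕ → ℕ → ℝ) (ε S : ℝ) (hε : 0 ≤ ε)
    (Γ : Finset ℤ) (P : ℕ → ℤ → ℕ → Prop) (hφ1 : ∀ r s, φ r s ≤ 1)
    (hfar : ∀ r s, (∀ γ ∈ Γ, ¬ P r γ s) → φ r s ≤ ε)
    (harc : ∀ r, ∀ γ : ℤ, ∀ T : Finset ℕ, T ⊆ range M → (∀ s ∈ T, P r γ s) → ∑ s ∈ T, a s ≤ S) :
    ∑ r ∈ range M, ∑ s ∈ range M, a r * a s * φ r s ≤
      ε * (∑ r ∈ range M, a r) ^ 2 + Γ.card * S * ∑ r ∈ range M, a r := by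
  classical
  have h1 : ∀ r ∈ range M, ∑ s ∈ range M, a r * a s * φ r s ≤
      ε * a r * ∑ s ∈ range M, a s + Γ.card * S * a r := by
    intro r _
    have h2 : ∀ s ∈ range M, a r * a s * φ r s ≤ ε * a r * a s + ∑ γ ∈ Γ, a r * (if P r γ s then a s else 0) := by
      intro s _
      have h0 : 0 ≤ a r * a s := mul_nonneg (ha r) (ha s)
      have h5 : 0 ≤ ∑ γ ∈ Γ, a r * (if P r γ s then a s else 0) := by
        apply sum_nonneg
        intro γ _
        apply mul_nonneg (ha r)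
        split_ifs
        · exact ha s
        · exact le_rfl
      by_cases h3 : ∀ γ ∈ Γ, ¬ P r γ s
      · have h4 := mul_le_mul_of_nonneg_left (hfar r s h3) h0
        nlinarith
      · push Not at h3
        obtain ⟨γ, hγ, hP⟩ := h3
        have h4 : a r * a s ≤ ∑ γ ∈ Γ, a r * (if P r γ s then a s else 0) := by
          have h6 := single_le_sum (f := fun γ => a r * (if P r γ s then a s else 0)) (fun γ _ => by
            show 0 ≤ a r * (if P r γ s then a s else 0)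
            apply mul_nonneg (ha r)
            split_ifs
            · exact ha s
            · exact le_rfl) hγ
          simp only [if_pos hP] at h6
          exact h6
        have h7 := mul_le_mul_of_nonneg_left (hφ1 r s) h0
        have h8 : 0 ≤ ε * a r * a s := mul_nonneg (mul_nonneg hε (ha r)) (ha s)
        linarith
    refine (sum_le_sum h2).trans ?_
    rw [sum_add_distrib, ← mul_sum]
    gcongr
    rw [sum_comm]
    have h3 : ∀ γ ∈ Γ, ∑ s ∈ range M, a r * (if P r γ s then a s else 0) ≤ S * a r := by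
      intro γ _
      rw [← mul_sum, ← sum_filter, mul_comm]
      apply mul_le_mul_of_nonneg_right _ (ha r)
      exact harc r γ _ (filter_subset _ _) (fun s hs => (mem_filter.1 hs).2)
    refine (sum_le_sum h3).trans ?_
    rw [sum_const, nsmul_eq_mul]
    ring_nf
    exact le_rfl
  refine (sum_le_sum h1).trans ?_
  rw [sum_add_distrib, ← sum_mul, ← mul_sum, ← mul_sum]
  ring_nf
  exact le_rfl

/-- Cauchy–Schwarz for norms of products -/
lemma cs_norm (T : Finset ℕ) (u v : ℕ → ℂ) :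
    ∑ s ∈ T, ‖(starRingEnd ℂ) (u s) * v s‖ ≤ √(∑ s ∈ T, ‖u s‖ ^ 2) * √(∑ s ∈ T, ‖v s‖ ^ 2) := by
  have h := Real.sum_mul_le_sqrt_mul_sqrt T (fun s => ‖u s‖) (fun s => ‖v s‖)
  refine le_trans (le_of_eq ?_) h
  apply sum_congr rfl
  intro s _
  rw [norm_mul, RCLike.norm_conj]

/-- The analytic core: for fixed numbers, the second moment of the correlation over random shifts. -/
theorem core {ι : Type} (Ω : Finset ι) (p : ι → ℝ) (Yv : ι → ℤ) (hp : ∀ ω ∈ Ω, 0 ≤ p ω) (hp1 : ∑ ω ∈ Ω, p ω ≤ 1)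
    (N X M B w J n : ℕ) (hM : 1 ≤ M) (hNX : X = (B + 1) * N) (hMX : 2 * (B + 2) * N ≤ M) (hN : 1 ≤ N)
    (hY : ∀ ω ∈ Ω, |Yv ω| ≤ B * N) (G g : ℕ → ℝ) (Kc : ℝ) (hG : ∀ n ∈ Icc 1 N, |G n| ≤ Kc)
    (F K g2 ε R : ℝ) (hε : 0 ≤ ε) (hg2 : ∀ k ∈ Icc 1 X, g k ^ 2 ≤ g2)
    (hK : ∀ c : ℤ, ∑ s ∈ Icc (-(w : ℤ)) (w : ℤ), ‖DF g X M (c + s)‖ ^ 2 ≤ K)
    (hJ : 2 * n + 1 ≤ J * (2 * w + 1)) (hRn : R < n + 1) (Γ : Finset ℤ)
    (hΓ : ∀ t : ℤ, (∀ γ ∈ Γ, ∀ k : ℤ, R < |((t - γ - k * M : ℤ) : ℝ)|) →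
      ‖∑ ω ∈ Ω, ((p ω : ℝ) : ℂ) * ee ((Yv ω : ℝ) * ((t : ℝ) / M))‖ ≤ ε)
    (hF1 : √(M * (N * Kc ^ 2)) * √(M * (X * g2)) ≤ F) :
    (M : ℝ) ^ 2 * ∑ ω ∈ Ω, p ω * (∑ n ∈ Icc 1 N, G n * gI g (n + Yv ω)) ^ 2 ≤
      ε * F ^ 2 + Γ.card * (√(M * (N * Kc ^ 2)) * √(J * K)) * F := by
  classical
  have hM0 : (0 : ℝ) < M := by exact_mod_cast hM
  have hBN : N ≤ (B + 1) * N := Nat.le_mul_of_pos_left _ (by omega)
  have hXM : X ≤ M := by rw [hNX]; nlinarith
  have hNM : N ≤ M := by omega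
  set A : ℕ → ℂ := fun r => (starRingEnd ℂ) (DF G N M r) * DF g X M r with hA
  -- Fourier
  have hcorr : ∀ ω ∈ Ω, (M : ℝ) ^ 2 * (∑ n ∈ Icc 1 N, G n * gI g (n + Yv ω)) ^ 2 =
      ‖∑ r ∈ range M, A r * ee (-((Yv ω : ℝ) * ((r : ℝ) / M)))‖ ^ 2 := by
    intro ω hω
    have hy := abs_le.1 (hY ω hω)
    have h1 := corr G g N X M hM (Yv ω) (by
      intro n hn
      rw [mem_Icc] at hn
      rw [hNX]
      push_cast
      nlinarith [hy.2]) (by
      intro n hn k hk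
      rw [mem_Icc] at hn hk
      have h3 : (k : ℤ) ≤ (B + 1) * N := by
        have := hk.2
        rw [hNX] at this
        exact_mod_cast this
      have h4 : (2 * (B + 2) * N : ℤ) ≤ M := by exact_mod_cast hMX
      have h5 : (n : ℤ) ≤ N := by exact_mod_cast hn.2
      have h6 : (1 : ℤ) ≤ n := by exact_mod_cast hn.1
      have h7 : (1 : ℤ) ≤ k := by exact_mod_cast hk.1
      have h8 : (0 : ℤ) ≤ (B : ℤ) * N := by positivity
      rw [abs_lt]
      constructor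
      · nlinarith [hy.1, hy.2]
      · nlinarith [hy.1, hy.2])
    rw [← h1, norm_mul, Complex.norm_natCast, Complex.norm_real, Real.norm_eq_abs, mul_pow, sq_abs]
  have hL : (M : ℝ) ^ 2 * ∑ ω ∈ Ω, p ω * (∑ n ∈ Icc 1 N, G n * gI g (n + Yv ω)) ^ 2 =
      ∑ ω ∈ Ω, p ω * ‖∑ r ∈ range M, A r * ee (-((Yv ω : ℝ) * ((r : ℝ) / M)))‖ ^ 2 := by
    rw [mul_sum]
    apply sum_congr rfl
    intro ω hω
    rw [← hcorr ω hω]
    ring
  rw [hL]
  refine (second Ω p Yv M A).trans ?_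
  -- norms
  have hDF : ∑ s ∈ range M, ‖DF G N M s‖ ^ 2 ≤ M * (N * Kc ^ 2) := by
    rw [DF_sq G N M hM hNM]
    apply mul_le_mul_of_nonneg_left _ hM0.le
    have h1 : ∀ n ∈ Icc 1 N, G n ^ 2 ≤ Kc ^ 2 := by
      intro n hn
      rw [← sq_abs (G n)]
      exact pow_le_pow_left₀ (abs_nonneg _) (hG n hn) 2
    refine (sum_le_sum h1).trans ?_
    rw [sum_const, Nat.card_Icc, nsmul_eq_mul, Nat.add_sub_cancel]
  have hDg : ∑ s ∈ range M, ‖DF g X M s‖ ^ 2 ≤ M * (X * g2) := by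
    rw [DF_sq g X M hM hXM]
    apply mul_le_mul_of_nonneg_left _ hM0.le
    refine (sum_le_sum hg2).trans ?_
    rw [sum_const, Nat.card_Icc, nsmul_eq_mul, Nat.add_sub_cancel]
  have hsumA : ∑ r ∈ range M, ‖A r‖ ≤ F := by
    refine le_trans ?_ hF1
    refine (cs_norm (range M) (fun r => DF G N M r) (fun r => DF g X M r)).trans ?_
    exact mul_le_mul (Real.sqrt_le_sqrt hDF) (Real.sqrt_le_sqrt hDg) (Real.sqrt_nonneg _) (Real.sqrt_nonneg _)
  have hsumA0 : 0 ≤ ∑ r ∈ range M, ‖A r‖ := sum_nonneg fun _ _ => norm_nonneg _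
  set S := √(M * (N * Kc ^ 2)) * √(J * K) with hSd
  have hS0 : 0 ≤ S := by positivity
  have hφ1 : ∀ r s : ℕ, ‖∑ ω ∈ Ω, ((p ω : ℝ) : ℂ) * ee ((Yv ω : ℝ) * ((((s : ℤ) - r : ℤ) : ℝ) / M))‖ ≤ 1 := by
    intro r s
    refine (norm_sum_le _ _).trans (le_trans (le_of_eq ?_) hp1)
    apply sum_congr rfl
    intro ω hω
    rw [norm_mul, norm_ee, mul_one, Complex.norm_real, Real.norm_of_nonneg (hp ω hω)]
  have hmain := split_sum M (fun r => ‖A r‖) (fun _ => norm_nonneg _)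
    (fun r s => ‖∑ ω ∈ Ω, ((p ω : ℝ) : ℂ) * ee ((Yv ω : ℝ) * ((((s : ℤ) - r : ℤ) : ℝ) / M))‖) ε S hε Γ
    (fun r γ s => ∃ k : ℤ, |(s : ℤ) - (r + γ) - k * M| ≤ n) hφ1
    (by
      intro r s hs
      apply hΓ
      intro γ hγ k
      have h1 := hs γ hγ
      push Not at h1
      have h2 := h1 k
      have h3 : ((n : ℤ) + 1 : ℤ) ≤ |(s : ℤ) - (r + γ) - k * M| := h2
      have h4 : ((n : ℝ) + 1) ≤ |(((s : ℤ) - (r + γ) - k * M : ℤ) : ℝ)| := by
        rw [← Int.cast_abs]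
        exact_mod_cast h3
      have h5 : ((s : ℤ) - r - γ - k * M : ℤ) = (s : ℤ) - (r + γ) - k * M := by ring
      rw [h5]
      linarith)
    (by
      intro r γ T hT hTP
      refine (cs_norm T (fun r => DF G N M r) (fun r => DF g X M r)).trans ?_
      apply mul_le_mul _ _ (Real.sqrt_nonneg _) (Real.sqrt_nonneg _)
      · apply Real.sqrt_le_sqrt
        refine le_trans ?_ hDF
        exact sum_le_sum_of_subset_of_nonneg hT (fun _ _ _ => by positivity)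
      · apply Real.sqrt_le_sqrt
        have h1 := arc_sum (fun k : ℤ => ‖DF g X M k‖ ^ 2) (fun _ => by positivity) M hM
          (by intro r k; simp only [DF_per g X M hM r k]) ((r : ℤ) + γ) n
        have h2 := cover (fun k : ℤ => ‖DF g X M k‖ ^ 2) (fun _ => by positivity) w K hK n J hJ ((r : ℤ) + γ)
        refine le_trans ?_ (h1.trans h2)
        apply sum_le_sum_of_subset_of_nonneg
        · intro s hs
          rw [mem_filter]
          exact ⟨hT hs, hTP s hs⟩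
        · intro _ _ _
          positivity)
  refine hmain.trans ?_
  have h9 : (∑ r ∈ range M, ‖A r‖) ^ 2 ≤ F ^ 2 := pow_le_pow_left₀ hsumA0 hsumA 2
  have h10 : ε * (∑ r ∈ range M, ‖A r‖) ^ 2 ≤ ε * F ^ 2 := mul_le_mul_of_nonneg_left h9 hε
  have h11 : (Γ.card : ℝ) * S * ∑ r ∈ range M, ‖A r‖ ≤ Γ.card * S * F :=
    mul_le_mul_of_nonneg_left hsumA (by positivity)
  linarith

end Pool.Agent.Run7.h27.MK
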