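import Pool.Agent.Run7.h27.MK.Poly2
import Pool.Agent.Run7.h364.MK.One

set_option autoImplicit false

/-!
Goldbach's problem for the small multiples of the integers near the members of families which obey the one shift law.
-/

namespace Pool.Agent.Run7.h27.MK

open Finset Filter Polynomial
open Pool.Agent.H807R2.Dav (ee norm_ee ee_add)
open Pool.Agent.H373R2.T7 (lamz lamI lamzI ev_L')
open Pool.Agent.N384.MQ (Sm Sm.char Sm.interval)
open Pool.Agent.W93.PG (reflect pg_det win_count GoodG WinP)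
open Pool.Agent.W93.PP (markov)
open Pool.Agent.W93.GB (vM_le)
open Pool.Agent.Run7.h794.MK
open Pool.Agent.Run7.h364.MK (Gam Gam_card far charf)

/-- the one shift law for all the small multiples of the members of a class of distributions, all integer constants -/
def ZLawH (L : ℕ → Finset ℕ → (ℕ → ℝ) → Prop) (κ : ℤ) (J Bc U : ℕ) : Prop :=
  ∃ B0 : ℕ, ∀ E : ℕ, ∃ N₀ : ℕ, ∀ N : ℕ, N₀ ≤ N → ∀ (Ω : Finset ℕ) (p : ℕ → ℝ), L N Ω p → (∀ v ∈ Ω, 0 ≤ p v) ∧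
    ∀ h : ℕ, 1 ≤ h → (h : ℝ) ≤ Real.log N ^ J →
    ∀ cc : ℤ, |cc| ≤ Bc * N → ∀ z : ℕ, Real.log N ^ B0 ≤ z → (z : ℝ) ≤ Real.log N ^ E → ∀ Kc : ℝ, 0 < Kc →
      ∀ G : ℕ → ℝ, (∀ n ∈ Icc 1 N, |G n| ≤ Kc) →
      ∑ v ∈ Ω, p v * |∑ n ∈ Icc 1 N, G n * (lamI ((n : ℤ) + (cc + h * κ * (v : ℕ))) - lamzI z ((n : ℤ) + (cc + h * κ * (v : ℕ))))| ≤
        Kc * (N / Real.log N ^ U)

/-- flat families, multiples -/
theorem zlaw_flatH (hlaw : S_LAW') (κ : ℤ) (hκ : κ ≠ 0) (J Bc U : ℕ) :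
    ∃ V C : ℕ, ZLawH (fun N Ω p => ∃ q : ℕ, Ω = range q ∧ Msh V C 1 N q p ∧ (q : ℝ) * Real.log N ^ J ≤ N) κ J Bc U := by
  obtain ⟨B, hB⟩ : ∃ B, B = Bc + κ.natAbs := ⟨_, rfl⟩
  obtain ⟨V₁, h1⟩ := hlaw B U
  obtain ⟨C, B₀, h2⟩ := h1 (J + 1) (V₁ + 2)
  refine ⟨V₁ + 2, C, B₀, fun E => ?_⟩
  obtain ⟨N₁, h3⟩ := h2 E
  obtain ⟨N₂, h4⟩ := ev_L' (11 + Real.log 2 + κ.natAbs)
  refine ⟨N₁ + N₂ + 2 * (B + 2) + 2, fun N hN Ω p hL0 => ?_⟩
  obtain ⟨q, rfl, hp, hqJ⟩ := hL0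
  refine ⟨fun v _ => hp.2.2.1 v, fun h hh1 hhJ cc hcc z hz1 hz2 Kc hKc G hG => ?_⟩
  obtain ⟨hp1, hp2, hp3, hp4, hp5⟩ := hp
  have hL := h4 N (by omega)
  obtain ⟨L, hLdef⟩ : ∃ L, L = Real.log (N : ℝ) := ⟨_, rfl⟩
  rw [← hLdef] at hL hqJ hhJ
  have hκ0 : (0 : ℝ) ≤ κ.natAbs := Nat.cast_nonneg _
  have hl2 : 0 ≤ Real.log 2 := Real.log_nonneg (by norm_num)
  have hL11 : 11 ≤ L := by linarith
  have hL0 : 0 < L := by linarith
  have hq := hp5.pos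
  have hq0 : (0 : ℝ) < q := by exact_mod_cast hq
  have hN1 : 1 ≤ N := by omega
  have hN0 : (0 : ℝ) < N := by exact_mod_cast hN1
  have hK1 : 1 ≤ κ.natAbs := Int.natAbs_pos.2 hκ
  obtain ⟨M, hM⟩ : ∃ M, M = 2 * (B + 2) * N := ⟨_, rfl⟩
  have hM2 : M ≤ N ^ 2 := by
    rw [hM, pow_two]
    exact Nat.mul_le_mul_right _ (by omega)
  have hM1 : 1 ≤ M := by
    rw [hM]
    exact Nat.mul_pos (by omega) (by omega)
  have hM0 : (0 : ℝ) < M := by exact_mod_cast hM1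
  have hMq : 2 * (q : ℝ) ≤ M := by
    have h5 : 2 * q ≤ M := by
      calc 2 * q ≤ 2 * (1 * N) := by omega
        _ ≤ 2 * ((B + 2) * N) := by
          apply Nat.mul_le_mul_left
          exact Nat.mul_le_mul_right _ (by omega)
        _ = M := by rw [hM]; ring
    exact_mod_cast h5
  have hMq' : 2 ≤ (M : ℝ) / q := by
    rw [le_div_iff₀ hq0]
    exact hMq
  obtain ⟨κ', hκ'⟩ : ∃ κ' : ℤ, κ' = h * κ := ⟨_, rfl⟩
  have hκ'0 : κ' ≠ 0 := by
    rw [hκ']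
    exact mul_ne_zero (by exact_mod_cast (by omega : h ≠ 0)) hκ
  have hκ'a : κ'.natAbs = h * κ.natAbs := by
    rw [hκ', Int.natAbs_mul, Int.natAbs_natCast]
  have key := h3 N (by omega) z hz1 hz2 M (by rw [hM]) hM2 ℕ (range q) p (fun v => cc + h * κ * (v : ℕ))
    (fun v _ => hp3 v) hp4.le (fun v hv => by
      rw [mem_range] at hv
      have h6 : ((h * v : ℕ) : ℝ) ≤ N := by
        push_cast
        refine le_trans ?_ hqJ
        rw [mul_comm (q : ℝ)]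
        exact mul_le_mul hhJ (by exact_mod_cast hv.le) (Nat.cast_nonneg _) (by positivity)
      have h7 : h * v ≤ N := by exact_mod_cast h6
      have h5 : |cc + h * κ * (v : ℕ)| ≤ |cc| + |(h : ℤ) * κ * (v : ℕ)| := abs_add_le _ _
      have h8 : |(h : ℤ) * κ * (v : ℕ)| = κ.natAbs * ((h * v : ℕ) : ℤ) := by
        rw [abs_mul, abs_mul, Int.abs_eq_natAbs κ, abs_of_nonneg (by positivity : (0 : ℤ) ≤ (v : ℕ)),
          abs_of_nonneg (by positivity : (0 : ℤ) ≤ (h : ℕ))]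
        push_cast
        ring
      have h9 : ((κ.natAbs * (h * v) : ℕ) : ℤ) ≤ ((κ.natAbs * N : ℕ) : ℤ) := by
        exact_mod_cast Nat.mul_le_mul_left _ h7
      rw [h8] at h5
      rw [hB]
      push_cast at h5 h9 ⊢
      nlinarith) q hp1 (Gam κ' M) (by
      rw [← hLdef]
      have h5 : ((Gam κ' M).card : ℝ) ≤ κ'.natAbs := by exact_mod_cast Gam_card κ' M
      rw [hκ'a] at h5
      push_cast at h5
      refine h5.trans ?_
      rw [pow_succ]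
      exact mul_le_mul hhJ (by rw [Nat.cast_natAbs] at hL hκ0 ⊢; linarith) (by positivity) (by positivity)) (fun t ht => ?_) Kc hKc G hG
  · exact key
  · -- the characteristic function is small
    rw [← hLdef] at ht ⊢
    rw [← hLdef] at hp5
    have hLD : 1 ≤ L ^ (V₁ + 2) := one_le_pow₀ (by linarith)
    have hR : 2 ≤ L ^ (V₁ + 2) * ((M : ℝ) / q) := by nlinarith
    have hfar := far κ' hκ'0 M hM1 t (L ^ (V₁ + 2) * ((M : ℝ) / q)) hR ht
    have hδ : L ^ (V₁ + 2) * ((M : ℝ) / q) / (4 * M) = L ^ (V₁ + 2) / (4 * q) := by field_simp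
    rw [hδ] at hfar
    have h10 := charf hp5 (by positivity) κ' cc ((t : ℝ) / M) (L ^ (V₁ + 2) / (4 * q)) (by positivity) hfar
    rw [hκ'] at h10
    refine h10.trans ?_
    have e1 : 1 / (L ^ (V₁ + 2) / (4 * q) * q) = 4 / L ^ (V₁ + 2) := by field_simp
    rw [e1]
    have hlogq : Real.log q ≤ 2 * L := by
      have h5 : (q : ℝ) ≤ 2 * N := by
        have : q ≤ 2 * N := by omega
        exact_mod_cast this
      calc Real.log q ≤ Real.log (2 * N) := Real.log_le_log hq0 h5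
        _ = Real.log 2 + L := by
          rw [Real.log_mul (by norm_num) hN0.ne', hLdef]
        _ ≤ 2 * L := by linarith
    calc 4 / L ^ (V₁ + 2) + 1 / L ^ (V₁ + 2) * (42 + 3 * Real.log q) ≤
        4 / L ^ (V₁ + 2) + 1 / L ^ (V₁ + 2) * (42 + 3 * (2 * L)) := by gcongr
      _ = (46 + 6 * L) / L ^ 2 * (1 / L ^ V₁) := by
          rw [pow_add]
          field_simp
          ring
      _ ≤ 1 * (1 / L ^ V₁) := by
          apply mul_le_mul_of_nonneg_right _ (by positivity)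
          rw [div_le_one (by positivity)]
          nlinarith
      _ = 1 / L ^ V₁ := one_mul _

/-- the values of polynomials, multiples -/
theorem zlaw_polyH (hLAW : S_LAW') (d : ℕ) (hd : 1 ≤ d) (a : ℕ) (κ : ℤ) (hκ : κ ≠ 0) (J Bc U : ℕ) :
    ∃ C : ℕ, ZLawH (fun N Ω p => ∃ (f : ℤ[X]) (K : ℕ), Pol2 d a C 1 N f K ∧
      (∀ k : ℕ, k < K → ((f.eval (k : ℤ) : ℤ) : ℝ) * Real.log N ^ J ≤ N) ∧
      Ω = (range K).image (fun k : ℕ => (f.eval (k : ℤ)).toNat) ∧ p = pd f K) κ J Bc U := by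
  obtain ⟨C, B₀, hcore⟩ := poly_core2 hLAW d hd (a + J) κ hκ Bc 1 U
  refine ⟨C, B₀, fun E => ?_⟩
  obtain ⟨N₁, hN₁⟩ := hcore E
  obtain ⟨N₂, h2⟩ := eventually_atTop.1 (ev_ge 2)
  refine ⟨N₁ + N₂ + 3, fun N hN Ω p hL => ?_⟩
  obtain ⟨f, K, hpol, hval2, rfl, rfl⟩ := hL
  have hL2 := h2 N (by omega)
  refine ⟨fun v _ => by unfold pd; positivity, fun h hh1 hhJ cc hcc z hz1 hz2 Kc hKc G hG => ?_⟩
  obtain ⟨hfd, hlc2, hKd, hval⟩ := hpol
  have hh0 : (h : ℤ) ≠ 0 := by exact_mod_cast (by omega : h ≠ 0)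
  have hpol' : Pol2 d (a + J) C 1 N (Polynomial.C (h : ℤ) * f) K := by
    refine ⟨?_, ?_, hKd, ?_⟩
    · rw [natDegree_C_mul hh0, hfd]
    · have e1 : (Polynomial.C (h : ℤ) * f).leadingCoeff = h * f.leadingCoeff := by
        rw [leadingCoeff_mul, leadingCoeff_C]
      rw [e1]
      push_cast
      rw [abs_mul, Nat.abs_cast, pow_add, mul_comm]
      exact mul_le_mul hlc2 hhJ (Nat.cast_nonneg _) (by positivity)
    · intro k hk
      obtain ⟨h5, h6⟩ := hval k hk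
      rw [eval_mul, eval_C]
      refine ⟨mul_nonneg (by positivity) h5, ?_⟩
      have h7 : ((h * f.eval (k : ℤ) : ℤ) : ℝ) ≤ ((1 * N : ℕ) : ℝ) := by
        push_cast
        rw [one_mul]
        refine le_trans ?_ (hval2 k hk)
        rw [mul_comm]
        exact mul_le_mul_of_nonneg_left hhJ (by exact_mod_cast h5)
      have h8 : h * f.eval (k : ℤ) ≤ ((1 * N : ℕ) : ℤ) := by exact_mod_cast h7
      exact_mod_cast h8
  obtain ⟨_, hcorr⟩ := hN₁ N (by omega) _ K hpol'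
  have key := hcorr cc hcc z hz1 hz2 Kc hKc G hG
  refine le_trans (le_of_eq ?_) key
  rw [sum_pd f K (fun v => |∑ n ∈ Icc 1 N, G n * (lamI ((n : ℤ) + (cc + h * κ * (v : ℕ))) - lamzI z ((n : ℤ) + (cc + h * κ * (v : ℕ))))|)]
  refine sum_congr rfl fun k hk => ?_
  have h3 := (hval k (mem_range.1 hk)).1
  rw [Int.toNat_of_nonneg h3, eval_mul, eval_C]
  have e2 : ∀ n : ℕ, (n : ℤ) + (cc + h * κ * f.eval ((k : ℕ) : ℤ)) = (n : ℤ) + (cc + κ * (h * f.eval ((k : ℕ) : ℤ))) := by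
    intro n
    ring
  simp only [e2]

/-- the good moduli near `x`: all the even numbers between `N / log^A' N` and `N` which are multiples `h q` with
`h ≤ log^J N` of an integer `q` near `x` satisfy the law for all windows of Goldbach pairs -/
def GoldMult (ε : ℝ) (A A' W J N : ℕ) (x : ℤ) : Prop :=
  ∀ h : ℕ, 1 ≤ h → (h : ℝ) ≤ Real.log N ^ J → ∀ q : ℤ, |((q - x : ℤ) : ℝ)| ≤ Real.log N ^ W →
    ∀ m : ℕ, (m : ℤ) = h * q → (N : ℝ) / Real.log N ^ A' ≤ m → m ≤ N → 2 ∣ m → WinP ε A m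

open Classical in
theorem gold_mult (κ : ℤ) (B A A' W U J : ℕ) (ε : ℝ) (hε : 0 < ε) :
    ∃ R : ℕ, ∀ L : ℕ → Finset ℕ → (ℕ → ℝ) → Prop, ZLawH L κ J (B + 3) R →
    ∃ N₀ : ℕ, ∀ N : ℕ, N₀ ≤ N → ∀ {ι : Type} (S : Finset ι) (y : ι → ℕ) (Ω : Finset ℕ)
      (p : ℕ → ℝ), L N Ω p → Rep S y Ω p → ∀ c : ℤ, |(c : ℝ)| * Real.log N ^ J ≤ B * N →
      ((S.filter fun j => ¬ GoldMult ε A A' W J N (c + κ * (y j : ℕ))).card : ℝ) ≤ S.card / Real.log N ^ U := by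
  obtain ⟨V, hV⟩ : ∃ V, V = A + A' + 4 := ⟨_, rfl⟩
  refine ⟨2 * V + 8 + U + W + J + 4, fun L hZ => ?_⟩
  obtain ⟨B0, hB0⟩ := hZ
  obtain ⟨E1, hE1⟩ : ∃ E1, E1 = B0 + V + 7 := ⟨_, rfl⟩
  obtain ⟨k1, h1⟩ := hB0 (E1 + 1)
  obtain ⟨X1, hdet⟩ := pg_det V E1 (by omega)
  obtain ⟨X2, hwin⟩ := win_count ε hε A A'
  obtain ⟨N₂, h2⟩ := eventually_atTop.1 ((ev_logM (W + J) 1 one_pos).and (((tendsto_natCast_atTop_atTop (R := ℝ)).eventually
    (Real.tendsto_log_atTop.eventually_ge_atTop (4 : ℝ))).and (ev_logM A' 1 one_pos)))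
  refine ⟨k1 + X1 + X2 + N₂ + 4, fun N hN {ι} S y Ω p hL hr c hc => ?_⟩
  obtain ⟨g1, g2, g3⟩ := h2 N (by omega)
  obtain ⟨hp0, hcorr⟩ := h1 N (by omega) Ω p hL
  have hN4 : (4 : ℝ) ≤ N := by exact_mod_cast (by omega : 4 ≤ N)
  have hN0 : (0 : ℝ) < N := by linarith
  obtain ⟨ℓ, hℓ⟩ : ∃ ℓ, ℓ = Real.log (N : ℝ) := ⟨_, rfl⟩
  rw [← hℓ] at g1 g2 g3 hcorr hc
  rw [one_mul] at g1 g3
  have hL0 : 0 < ℓ := by linarith
  have hL1 : 1 ≤ ℓ := by linarith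
  have hfl : ∀ E : ℕ, ℓ ^ E ≤ (⌈ℓ ^ E⌉₊ : ℝ) ∧ (⌈ℓ ^ E⌉₊ : ℝ) ≤ ℓ ^ (E + 1) := by
    intro E
    refine ⟨Nat.le_ceil _, ?_⟩
    have h5 : (⌈ℓ ^ E⌉₊ : ℝ) < ℓ ^ E + 1 := Nat.ceil_lt_add_one (by positivity)
    have h6 : 1 ≤ ℓ ^ E := one_le_pow₀ hL1
    rw [pow_succ]
    nlinarith
  obtain ⟨z, hz⟩ : ∃ z, z = ⌈ℓ ^ E1⌉₊ := ⟨_, rfl⟩
  have hz1 : ℓ ^ E1 ≤ z := by rw [hz]; exact (hfl E1).1
  have hz2 : (z : ℝ) ≤ ℓ ^ (E1 + 1) := by rw [hz]; exact (hfl E1).2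
  obtain ⟨T, hT⟩ : ∃ T, T = ⌈ℓ ^ (V + 3)⌉₊ := ⟨_, rfl⟩
  have hT1 : ℓ ^ (V + 3) ≤ T := by rw [hT]; exact (hfl (V + 3)).1
  have hT2 : (T : ℝ) ≤ ℓ ^ (V + 4) := by rw [hT]; exact (hfl (V + 3)).2
  obtain ⟨R₁, hR₁⟩ : ∃ R₁ : ℕ, R₁ = ⌊ℓ ^ W⌋₊ := ⟨_, rfl⟩
  have hR₁L : (R₁ : ℝ) ≤ ℓ ^ W := by rw [hR₁]; exact Nat.floor_le (by positivity)
  obtain ⟨H, hH⟩ : ∃ H : ℕ, H = ⌊ℓ ^ J⌋₊ := ⟨_, rfl⟩
  have hHL : (H : ℝ) ≤ ℓ ^ J := by rw [hH]; exact Nat.floor_le (by positivity)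
  -- one integer `t` and one multiple `h`
  obtain ⟨RR, hRR⟩ : ∃ RR, RR = 2 * V + 8 + U + W + J + 4 := ⟨_, rfl⟩
  rw [← hRR] at hcorr
  have hone : ∀ h ∈ Icc 1 H, ∀ t ∈ Icc (-(R₁ : ℤ)) R₁,
      ∑ v ∈ Ω, (if ¬ (∀ m : ℕ, (m : ℤ) = h * (c + t) + h * κ * (v : ℕ) → (N : ℝ) / ℓ ^ A' ≤ m → m ≤ N → 2 ∣ m → WinP ε A m) then p v else 0) ≤
        1 / ℓ ^ (U + W + J + 3) := by
    intro h hh t ht
    rw [mem_Icc] at hh
    rw [mem_Icc] at ht
    have hhJ : (h : ℝ) ≤ ℓ ^ J := le_trans (by exact_mod_cast hh.2) hHL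
    have key := markov Ω (range (T + 1)) p hp0
      (fun v i => |∑ n ∈ Icc 1 (min (i * (N / T + 1)) N), ArithmeticFunction.vonMangoldt n *
        (lamI (h * (c + t) + h * κ * (v : ℕ) - n) - lamzI z (h * (c + t) + h * κ * (v : ℕ) - n))|)
      (fun _ _ => abs_nonneg _)
      (fun v => ¬ (∀ m : ℕ, (m : ℤ) = h * (c + t) + h * κ * (v : ℕ) → (N : ℝ) / ℓ ^ A' ≤ m → m ≤ N → 2 ∣ m → WinP ε A m))
      (N / ℓ ^ (V + 2)) (ℓ * (N / ℓ ^ RR)) (by positivity) (by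
        intro v hv hb
        by_contra hcon
        push Not at hcon
        apply hb
        intro m hm hm1 hm2 hm3
        have hmpos : (0 : ℝ) < m := lt_of_lt_of_le (by positivity) hm1
        have hm0 : m ≠ 0 := by
          rintro rfl
          simp at hmpos
        intro y₁ y₂ hy1 hy2 hy3
        refine hwin N (by omega) m hm2 (by rw [← hℓ]; exact hm1) ?_ y₁ y₂ hy1 hy2 hy3
        rw [← hV]
        intro y' hy'
        refine hdet N (by omega) m hm2 hm3 hm0 z (by rw [← hℓ]; exact hz1) (by rw [← hℓ]; exact hz2) T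
          (by rw [← hℓ]; exact hT1) ?_ y' hy'
        intro i hi
        have h5 := (hcon i hi).le
        rw [← hm] at h5
        rw [← hℓ]
        exact h5)
      (by
        intro i _
        obtain ⟨Y, hY⟩ : ∃ Y, Y = min (i * (N / T + 1)) N := ⟨_, rfl⟩
        have hYN : Y ≤ N := by rw [hY]; exact min_le_right _ _
        rw [← hY]
        have hG : ∀ n ∈ Icc 1 N, |(fun n : ℕ => if N + 1 - n ≤ Y then ArithmeticFunction.vonMangoldt (N + 1 - n) else 0) n| ≤ ℓ := by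
          intro n hn
          rw [mem_Icc] at hn
          simp only
          split_ifs with h5
          · rw [abs_of_nonneg ArithmeticFunction.vonMangoldt_nonneg, hℓ]
            exact vM_le (N + 1 - n) N (by omega) (by omega)
          · rw [abs_zero]; exact hL0.le
        have h6 := hcorr h hh.1 hhJ (h * (c + t) - ((N : ℤ) + 1)) (by
          have e0 : |((h : ℤ) * (c + t) - ((N : ℤ) + 1))| ≤ |(h : ℤ) * c| + |(h : ℤ) * t| + ((N : ℤ) + 1) := by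
            have e2 := abs_sub ((h : ℤ) * (c + t)) ((N : ℤ) + 1)
            have e3 := abs_add_le ((h : ℤ) * c) (h * t)
            have e4 : |(N : ℤ) + 1| = (N : ℤ) + 1 := abs_of_nonneg (by positivity)
            have e5 : (h : ℤ) * (c + t) = h * c + h * t := by ring
            rw [e5] at e2 ⊢
            linarith
          have e1 : ((|(h : ℤ) * c| : ℤ) : ℝ) ≤ ((B * N : ℕ) : ℝ) := by
            push_cast
            rw [abs_mul, Nat.abs_cast]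
            refine le_trans ?_ hc
            rw [mul_comm]
            exact mul_le_mul_of_nonneg_left hhJ (abs_nonneg _)
          have e2 : ((|(h : ℤ) * t| : ℤ) : ℝ) ≤ (N : ℝ) := by
            push_cast
            rw [abs_mul, Nat.abs_cast]
            have e3 : |(t : ℝ)| ≤ ℓ ^ W := by
              refine le_trans ?_ hR₁L
              have : |t| ≤ (R₁ : ℤ) := abs_le.2 ht
              exact_mod_cast this
            refine le_trans ?_ g1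
            rw [pow_add, mul_comm]
            exact mul_le_mul e3 hhJ (Nat.cast_nonneg _) (by positivity)
          have e3 : |(h : ℤ) * c| ≤ ((B * N : ℕ) : ℤ) := by exact_mod_cast e1
          have e4 : |(h : ℤ) * t| ≤ (N : ℤ) := by exact_mod_cast e2
          have e6 : (1 : ℤ) ≤ N := by exact_mod_cast (by omega : 1 ≤ N)
          push_cast at e3 ⊢
          nlinarith) z (le_trans (pow_le_pow_right₀ hL1 (by omega)) hz1) hz2 ℓ hL0 _ hG
        refine le_trans (le_of_eq ?_) h6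
        refine sum_congr rfl fun v _ => ?_
        congr 2
        have e7 := reflect (fun j => if j ≤ Y then ArithmeticFunction.vonMangoldt j else 0) z N (h * (c + t) + h * κ * (v : ℕ))
        have e8 : ∑ n ∈ Icc 1 N, (fun n : ℕ => if N + 1 - n ≤ Y then ArithmeticFunction.vonMangoldt (N + 1 - n) else 0) n *
            (lamI ((n : ℤ) + (h * (c + t) - ((N : ℤ) + 1) + h * κ * (v : ℕ))) - lamzI z ((n : ℤ) + (h * (c + t) - ((N : ℤ) + 1) + h * κ * (v : ℕ)))) =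
            ∑ a ∈ Icc 1 N, (fun j => if j ≤ Y then ArithmeticFunction.vonMangoldt j else 0) (N + 1 - a) *
              (lamI ((a : ℤ) + (h * (c + t) + h * κ * (v : ℕ) - ((N : ℤ) + 1))) - lamzI z ((a : ℤ) + (h * (c + t) + h * κ * (v : ℕ) - ((N : ℤ) + 1)))) := by
          refine sum_congr rfl fun n _ => ?_
          have e9 : (n : ℤ) + (h * (c + t) - ((N : ℤ) + 1) + h * κ * (v : ℕ)) = (n : ℤ) + (h * (c + t) + h * κ * (v : ℕ) - ((N : ℤ) + 1)) := by ring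
          rw [e9]
        rw [e8, e7]
        have e10 : Icc 1 Y = (Icc 1 N).filter (fun j => j ≤ Y) := by
          ext j
          rw [mem_filter, mem_Icc, mem_Icc]
          omega
        rw [e10, sum_filter]
        refine sum_congr rfl fun j _ => ?_
        split_ifs <;> ring)
    refine key.trans ?_
    rw [card_range]
    push_cast
    have hT3 : (T : ℝ) + 1 ≤ ℓ ^ (V + 5) := by
      have h6 : 1 ≤ ℓ ^ (V + 4) := one_le_pow₀ hL1
      rw [show V + 5 = (V + 4) + 1 by ring, pow_succ ℓ (V + 4)]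
      nlinarith
    calc ((T : ℝ) + 1) * (ℓ * ((N : ℝ) / ℓ ^ RR)) / (N / ℓ ^ (V + 2))
        ≤ ℓ ^ (V + 5) * (ℓ * ((N : ℝ) / ℓ ^ RR)) / (N / ℓ ^ (V + 2)) := by gcongr
      _ = ℓ ^ (2 * V + 8) / ℓ ^ RR := by
          rw [show 2 * V + 8 = (V + 5) + 1 + (V + 2) by ring, pow_add ℓ (V + 5 + 1) (V + 2), pow_succ ℓ (V + 5)]
          field_simp
      _ = 1 / ℓ ^ (U + W + J + 4) := by
          rw [hRR, show 2 * V + 8 + U + W + J + 4 = (2 * V + 8) + (U + W + J + 4) by ring, pow_add ℓ (2 * V + 8)]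
          field_simp
      _ ≤ 1 / ℓ ^ (U + W + J + 3) := one_div_le_one_div_of_le (by positivity) (pow_le_pow_right₀ hL1 (by omega))
  -- the union
  rw [← hℓ]
  have hQ : ((S.filter fun j => ¬ GoldMult ε A A' W J N (c + κ * (y j : ℕ))).card : ℝ) ≤
      (S.card : ℝ) * ((H : ℝ) * (((2 * R₁ + 1 : ℕ) : ℝ) * (1 / ℓ ^ (U + W + J + 3)))) := by
    apply count_one hr (fun v => GoldMult ε A A' W J N (c + κ * (v : ℕ)))
    have h7 : ∀ v ∈ Ω, (if ¬ GoldMult ε A A' W J N (c + κ * (v : ℕ)) then p v else 0) ≤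
        ∑ h ∈ Icc 1 H, ∑ t ∈ Icc (-(R₁ : ℤ)) R₁, (if ¬ (∀ m : ℕ, (m : ℤ) = h * (c + t) + h * κ * (v : ℕ) → (N : ℝ) / ℓ ^ A' ≤ m → m ≤ N → 2 ∣ m → WinP ε A m) then p v else 0) := by
      intro v hv
      have hnn : ∀ h ∈ Icc 1 H, ∀ t ∈ Icc (-(R₁ : ℤ)) R₁, 0 ≤ (if ¬ (∀ m : ℕ, (m : ℤ) = h * (c + t) + h * κ * (v : ℕ) → (N : ℝ) / ℓ ^ A' ≤ m → m ≤ N → 2 ∣ m → WinP ε A m) then p v else 0) := by
        intro h _ t _
        split_ifs <;> first | exact le_rfl | exact hp0 v hv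
      have hnn2 : ∀ h ∈ Icc 1 H, 0 ≤ ∑ t ∈ Icc (-(R₁ : ℤ)) R₁, (if ¬ (∀ m : ℕ, (m : ℤ) = h * (c + t) + h * κ * (v : ℕ) → (N : ℝ) / ℓ ^ A' ≤ m → m ≤ N → 2 ∣ m → WinP ε A m) then p v else 0) :=
        fun h hh => sum_nonneg (hnn h hh)
      split_ifs with hcon
      · exact sum_nonneg hnn2
      unfold GoldMult at hcon
      push Not at hcon
      obtain ⟨h, hh1, hh2, q, hq1, m, hm1, hm2, hm3, hm4, hm5⟩ := hcon
      rw [← hℓ] at hq1 hm2 hh2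
      have hhm : h ∈ Icc 1 H := by
        rw [mem_Icc, hH]
        exact ⟨hh1, Nat.le_floor hh2⟩
      obtain ⟨t, htdef⟩ : ∃ t : ℤ, t = q - (c + κ * (v : ℕ)) := ⟨_, rfl⟩
      have ht : t ∈ Icc (-(R₁ : ℤ)) R₁ := by
        have h8 : ((t.natAbs : ℕ) : ℝ) ≤ ℓ ^ W := by
          rw [Nat.cast_natAbs, htdef]
          push_cast at hq1 ⊢
          exact hq1
        have h9 := Nat.le_floor h8
        rw [← hR₁] at h9
        rw [mem_Icc]
        omega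
      refine le_trans ?_ (single_le_sum hnn2 hhm)
      refine le_trans ?_ (single_le_sum (hnn h hhm) ht)
      rw [if_pos]
      intro hcon2
      exact hm5 (hcon2 m (by rw [hm1, htdef]; ring) hm2 hm3 hm4)
    refine (sum_le_sum h7).trans ?_
    rw [sum_comm]
    have h8 : ∀ h ∈ Icc 1 H, ∑ v ∈ Ω, ∑ t ∈ Icc (-(R₁ : ℤ)) R₁, (if ¬ (∀ m : ℕ, (m : ℤ) = h * (c + t) + h * κ * (v : ℕ) → (N : ℝ) / ℓ ^ A' ≤ m → m ≤ N → 2 ∣ m → WinP ε A m) then p v else 0) ≤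
        ((2 * R₁ + 1 : ℕ) : ℝ) * (1 / ℓ ^ (U + W + J + 3)) := by
      intro h hh
      rw [sum_comm]
      refine (sum_le_sum (hone h hh)).trans ?_
      rw [sum_const, nsmul_eq_mul, Int.card_Icc]
      have e1 : ((R₁ : ℤ) + 1 - -(R₁ : ℤ)).toNat = 2 * R₁ + 1 := by omega
      rw [e1]
    refine (sum_le_sum h8).trans ?_
    rw [sum_const, nsmul_eq_mul, Nat.card_Icc]
    have e2 : H + 1 - 1 = H := by omega
    rw [e2]
  refine hQ.trans ?_
  rw [div_eq_mul_inv]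
  apply mul_le_mul_of_nonneg_left _ (Nat.cast_nonneg _)
  have h9 : ((2 * R₁ + 1 : ℕ) : ℝ) ≤ ℓ ^ (W + 1) := by
    push_cast
    have : 1 ≤ ℓ ^ W := one_le_pow₀ hL1
    rw [pow_succ]
    nlinarith
  calc (H : ℝ) * (((2 * R₁ + 1 : ℕ) : ℝ) * (1 / ℓ ^ (U + W + J + 3))) ≤ ℓ ^ J * (ℓ ^ (W + 1) * (1 / ℓ ^ (U + W + J + 3))) := by
        gcongr
    _ = 1 / ℓ ^ (U + 2) := by
        rw [show U + W + J + 3 = J + (W + 1) + (U + 2) by ring, pow_add ℓ (J + (W + 1)), pow_add ℓ J (W + 1)]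
        field_simp
    _ ≤ 1 / ℓ ^ U := one_div_le_one_div_of_le (by positivity) (pow_le_pow_right₀ hL1 (by omega))
    _ = _ := one_div _

end Pool.Agent.Run7.h27.MK
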