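import Pool.Agent.Run7.h27.MK.Fin
import Pool.Agent.Run7.h27.MK.Mult

set_option autoImplicit false

/-!
The Goldbach pairs of all the small multiples of the integers near the members of short families: final forms.
-/

namespace Pool.Agent.Run7.h27.MK

open Finset Filter Polynomial
open Pool.Agent.N384.MQ
open Pool.Agent.W93.PG (WinP)
open Pool.Agent.Run7.h794.MK

/-- the good moduli near `x`: all the integers `q` near `x` which are not much smaller than `Q` satisfy the law for all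
windows of Goldbach pairs of all the even multiples of `q` up to `q log^J Q` -/
def GoodMod (ε : ℝ) (A J W Q : ℕ) (x : ℤ) : Prop :=
  ∀ q : ℕ, (Q : ℝ) / Real.log Q ^ W ≤ q → |(q : ℝ) - x| ≤ Real.log Q ^ W →
    ∀ n : ℕ, 0 < n → 2 ∣ n → q ∣ n → (n : ℝ) ≤ Real.log Q ^ J * q → WinP ε A n

/-- the change of the scale -/
lemma scale (J : ℕ) : ∃ Q₀ : ℕ, ∀ Q : ℕ, Q₀ ≤ Q → ∃ N : ℕ, Q ≤ N ∧ Real.log Q ≤ Real.log N ∧ Real.log N ≤ 2 * Real.log Q ∧
    (Q : ℝ) * Real.log Q ^ (J + 2) ≤ N ∧ (N : ℝ) ≤ Q * Real.log Q ^ (J + 3) := by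
  obtain ⟨Q₀, h⟩ := eventually_atTop.1 ((ev_logM (J + 3) 1 one_pos).and ((tendsto_natCast_atTop_atTop (R := ℝ)).eventually
    (Real.tendsto_log_atTop.eventually_ge_atTop (2 : ℝ))))
  refine ⟨Q₀ + 1, fun Q hQ => ?_⟩
  obtain ⟨h1, h2⟩ := h Q (by omega)
  have hQ0 : (0 : ℝ) < Q := by exact_mod_cast (by omega : 0 < Q)
  obtain ⟨l, hl⟩ : ∃ l, l = Real.log (Q : ℝ) := ⟨_, rfl⟩
  rw [← hl] at h1 h2 ⊢
  rw [one_mul] at h1
  have hl1 : 1 ≤ l := by linarith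
  obtain ⟨T, hT⟩ : ∃ T, T = ⌈l ^ (J + 2)⌉₊ := ⟨_, rfl⟩
  have hT1 : l ^ (J + 2) ≤ T := by rw [hT]; exact Nat.le_ceil _
  have h6 : 1 ≤ l ^ (J + 2) := one_le_pow₀ hl1
  have hT2 : (T : ℝ) ≤ l ^ (J + 3) := by
    have h5 : (T : ℝ) < l ^ (J + 2) + 1 := by rw [hT]; exact Nat.ceil_lt_add_one (by positivity)
    rw [pow_succ l (J + 2)]
    nlinarith
  have hT0 : (1 : ℝ) ≤ T := h6.trans hT1
  have hTn : 1 ≤ T := by exact_mod_cast hT0
  refine ⟨Q * T, Nat.le_mul_of_pos_right Q hTn, ?_, ?_, ?_, ?_⟩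
  · rw [hl]
    exact Real.log_le_log hQ0 (by exact_mod_cast Nat.le_mul_of_pos_right Q hTn)
  · push_cast
    rw [Real.log_mul hQ0.ne' (by linarith), ← hl]
    have h7 : Real.log T ≤ l := by
      rw [hl]
      exact Real.log_le_log (by linarith) (hT2.trans h1)
    linarith
  · push_cast
    exact mul_le_mul_of_nonneg_left hT1 hQ0.le
  · push_cast
    exact mul_le_mul_of_nonneg_left hT2 hQ0.le

lemma goodmod_of {ε : ℝ} {A J W B N Q : ℕ} {x : ℤ} (hQ : 1 ≤ Q) (hl : (B : ℝ) + 2 ≤ Real.log Q) (hlW : Real.log Q ^ W ≤ Q)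
    (h1 : Real.log Q ≤ Real.log N) (h3 : (Q : ℝ) * Real.log Q ^ (J + 2) ≤ N) (h4 : (N : ℝ) ≤ Q * Real.log Q ^ (J + 3))
    (hx : |(x : ℝ)| ≤ B * Q) (h : GoldMult ε A (J + 3 + W) W J N x) : GoodMod ε A J W Q x := by
  intro q hq1 hq2 n hn0 hn2 hqn hnJ
  obtain ⟨h', rfl⟩ := hqn
  obtain ⟨l, hldef⟩ : ∃ l, l = Real.log (Q : ℝ) := ⟨_, rfl⟩
  rw [← hldef] at hl hlW h1 h3 h4 hq1 hq2 hnJ
  have hB0 : (0 : ℝ) ≤ B := Nat.cast_nonneg _
  have hl2 : 2 ≤ l := by linarith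
  have hl0 : 0 < l := by linarith
  have hQ0 : (0 : ℝ) < Q := by exact_mod_cast (by omega : 0 < Q)
  have hq0 : (0 : ℝ) < q := lt_of_lt_of_le (by positivity) hq1
  have hh1 : 1 ≤ h' := by
    rcases Nat.eq_zero_or_pos h' with h0 | h0
    · rw [h0, mul_zero] at hn0
      omega
    · exact h0
  have hh1r : (1 : ℝ) ≤ h' := by exact_mod_cast hh1
  have hh2 : (h' : ℝ) ≤ l ^ J := by
    push_cast at hnJ
    rw [mul_comm] at hnJ
    exact le_of_mul_le_mul_right hnJ hq0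
  have hpow : ∀ k : ℕ, l ^ k ≤ Real.log N ^ k := fun k => pow_le_pow_left₀ hl0.le h1 k
  refine h h' hh1 (hh2.trans (hpow J)) (q : ℤ) ?_ (q * h') ?_ ?_ ?_ hn2
  · push_cast
    exact hq2.trans (hpow W)
  · push_cast
    ring
  · have h5 : (N : ℝ) / Real.log N ^ (J + 3 + W) ≤ Q / l ^ W := by
      rw [div_le_div_iff₀ (lt_of_lt_of_le (by positivity) (hpow _)) (by positivity)]
      calc (N : ℝ) * l ^ W ≤ (Q * l ^ (J + 3)) * l ^ W := mul_le_mul_of_nonneg_right h4 (by positivity)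
        _ = Q * l ^ (J + 3 + W) := by rw [pow_add l (J + 3) W]; ring
        _ ≤ Q * Real.log N ^ (J + 3 + W) := mul_le_mul_of_nonneg_left (hpow _) hQ0.le
    push_cast
    refine (h5.trans hq1).trans ?_
    exact le_mul_of_one_le_right hq0.le hh1r
  · have h5 : (q : ℝ) ≤ (B + 1) * Q := by
      have h6 := (abs_le.1 hq2).2
      have h7 := (abs_le.1 hx).2
      nlinarith
    have h6 : ((q * h' : ℕ) : ℝ) ≤ N := by
      push_cast
      calc (q : ℝ) * h' ≤ ((B + 1) * Q) * l ^ J := mul_le_mul h5 hh2 (Nat.cast_nonneg _) (by positivity)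
        _ = Q * l ^ J * (B + 1) := by ring
        _ ≤ Q * l ^ J * l ^ 2 := by
          apply mul_le_mul_of_nonneg_left _ (by positivity)
          nlinarith
        _ = Q * l ^ (J + 2) := by rw [pow_add l J 2]; ring
        _ ≤ N := h3
    exact_mod_cast h6

/-- the comparison of the powers at the two scales -/
lemma cmp_pow {l L : ℝ} (k : ℕ) (hl : 2 ^ k ≤ l) (h2 : L ≤ 2 * l) (hL : 0 ≤ L) : L ^ k ≤ l ^ (k + 1) := by
  have hl0 : 0 ≤ l := le_trans (by positivity) hl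
  calc L ^ k ≤ (2 * l) ^ k := pow_le_pow_left₀ hL h2 k
    _ = 2 ^ k * l ^ k := mul_pow _ _ _
    _ ≤ l * l ^ k := mul_le_mul_of_nonneg_right hl (by positivity)
    _ = l ^ (k + 1) := by ring

lemma cmp_cbrt {N Q J C : ℕ} (hQ : 1 ≤ Q) (hl1 : 1 ≤ Real.log Q) (hl : 2 ^ C ≤ Real.log Q) (h1 : Real.log Q ≤ Real.log N)
    (h2 : Real.log N ≤ 2 * Real.log Q) (h4 : (N : ℝ) ≤ Q * Real.log Q ^ (J + 3)) :
    (N : ℝ) ^ (1 / 3 : ℝ) * Real.log N ^ C ≤ (Q : ℝ) ^ (1 / 3 : ℝ) * Real.log Q ^ (C + J + 4) := by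
  obtain ⟨l, hldef⟩ : ∃ l, l = Real.log (Q : ℝ) := ⟨_, rfl⟩
  rw [← hldef] at hl1 hl h1 h2 h4 ⊢
  have hQ0 : (0 : ℝ) < Q := by exact_mod_cast (by omega : 0 < Q)
  have h5 : (N : ℝ) ^ (1 / 3 : ℝ) ≤ (Q : ℝ) ^ (1 / 3 : ℝ) * l ^ (J + 3) := by
    calc (N : ℝ) ^ (1 / 3 : ℝ) ≤ ((Q : ℝ) * l ^ (J + 3)) ^ (1 / 3 : ℝ) :=
          Real.rpow_le_rpow (Nat.cast_nonneg _) h4 (by norm_num)
      _ = (Q : ℝ) ^ (1 / 3 : ℝ) * (l ^ (J + 3)) ^ (1 / 3 : ℝ) := Real.mul_rpow hQ0.le (by positivity)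
      _ ≤ (Q : ℝ) ^ (1 / 3 : ℝ) * l ^ (J + 3) := by
          apply mul_le_mul_of_nonneg_left _ (by positivity)
          have h6 : 1 ≤ l ^ (J + 3) := one_le_pow₀ hl1
          calc (l ^ (J + 3)) ^ (1 / 3 : ℝ) ≤ (l ^ (J + 3)) ^ (1 : ℝ) := Real.rpow_le_rpow_of_exponent_le h6 (by norm_num)
            _ = l ^ (J + 3) := Real.rpow_one _
  calc (N : ℝ) ^ (1 / 3 : ℝ) * Real.log N ^ C ≤ ((Q : ℝ) ^ (1 / 3 : ℝ) * l ^ (J + 3)) * l ^ (C + 1) :=
        mul_le_mul h5 (cmp_pow C hl h2 (by linarith)) (pow_nonneg (by linarith) _) (by positivity)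
    _ = (Q : ℝ) ^ (1 / 3 : ℝ) * l ^ (C + J + 4) := by
        rw [show C + J + 4 = (J + 3) + (C + 1) by ring, pow_add l (J + 3) (C + 1)]
        ring

open Classical in
/-- flat families of length at least `Q^(1/3) log^C Q` -/
theorem short_mult (κ : ℤ) (hκ : κ ≠ 0) (A J W U : ℕ) (ε : ℝ) (hε : 0 < ε) :
    ∃ V C Q₀ : ℕ, ∀ Q : ℕ, Q₀ ≤ Q → ∀ (M : ℕ) [NeZero M], (Q : ℝ) ^ (1 / 3 : ℝ) * Real.log Q ^ C ≤ M → M ≤ Q →
      ∀ (ι : Type) (s : Finset ι) (y : ι → ZMod M), Flat M (1 / Real.log Q ^ V) s y → ∀ c : ℤ, |(c : ℝ)| ≤ Q →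
      ((s.filter fun i => ¬ GoodMod ε A J W Q (c + κ * ((y i).val : ℕ))).card : ℝ) ≤ s.card / Real.log Q ^ U := by
  obtain ⟨R, hR⟩ := gold_mult κ 1 A (J + 3 + W) W U J ε hε
  obtain ⟨V, C, hVC⟩ := zlaw_flatH law_all κ hκ J (1 + 3) R
  obtain ⟨N₀, hN₀⟩ := hR _ hVC
  obtain ⟨Q₁, h1⟩ := scale J
  obtain ⟨B, hB⟩ : ∃ B : ℕ, B = 1 + κ.natAbs := ⟨_, rfl⟩
  obtain ⟨Q₂, h2⟩ := eventually_atTop.1 ((ev_logM W 1 one_pos).and ((tendsto_natCast_atTop_atTop (R := ℝ)).eventually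
    (Real.tendsto_log_atTop.eventually_ge_atTop ((B : ℝ) + 2 + 2 ^ V + 2 ^ C + 2 ^ J))))
  refine ⟨V + 1, C + J + 4, Q₁ + Q₂ + N₀ + 1, fun Q hQ M _ hM1 hM2 ι s y hf c hc => ?_⟩
  obtain ⟨g1, g2⟩ := h2 Q (by omega)
  obtain ⟨N, hN1, hN2, hN3, hN4, hN5⟩ := h1 Q (by omega)
  have hQ0 : (0 : ℝ) < Q := by exact_mod_cast (by omega : 0 < Q)
  rw [one_mul] at g1
  obtain ⟨l, hldef⟩ : ∃ l, l = Real.log (Q : ℝ) := ⟨_, rfl⟩
  have hV0 : (0 : ℝ) < 2 ^ V := by positivity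
  have hC0 : (0 : ℝ) < 2 ^ C := by positivity
  have hJ0 : (0 : ℝ) < 2 ^ J := by positivity
  have hB0 : (0 : ℝ) ≤ B := Nat.cast_nonneg _
  have hl2 : 2 ≤ Real.log Q := by linarith
  have hL0 : 0 < Real.log N := by linarith
  rcases s.eq_empty_or_nonempty with hs | hs
  · subst hs
    simp
  have hMs : Msh V C 1 N M (dis s y) := by
    apply msh_dis hs
    · exact (cmp_cbrt (by omega) (by linarith) (by linarith) hN2 hN3 hN5).trans hM1
    · omega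
    · apply Flat.mono' hf
      apply one_div_le_one_div_of_le (by positivity)
      exact cmp_pow V (by linarith) hN3 hL0.le
  have hMJ : (M : ℝ) * Real.log N ^ J ≤ N := by
    calc (M : ℝ) * Real.log N ^ J ≤ Q * Real.log Q ^ (J + 1) :=
          mul_le_mul (by exact_mod_cast hM2) (cmp_pow J (by linarith) hN3 hL0.le) (by positivity) hQ0.le
      _ ≤ Q * Real.log Q ^ (J + 2) := by
          apply mul_le_mul_of_nonneg_left _ hQ0.le
          exact pow_le_pow_right₀ (by linarith) (by omega)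
      _ ≤ N := hN4
  have h5 := hN₀ N (by omega) s (fun i => (y i).val) (range M) (dis s y) ⟨M, rfl, hMs, hMJ⟩ (rep_dis hs y) c (by
    push_cast
    rw [one_mul]
    calc |(c : ℝ)| * Real.log N ^ J ≤ Q * Real.log Q ^ (J + 1) :=
          mul_le_mul hc (cmp_pow J (by linarith) hN3 hL0.le) (by positivity) hQ0.le
      _ ≤ Q * Real.log Q ^ (J + 2) := by
          apply mul_le_mul_of_nonneg_left _ hQ0.le
          exact pow_le_pow_right₀ (by linarith) (by omega)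
      _ ≤ N := hN4)
  refine le_trans (Nat.cast_le.2 (card_le_card fun i hi => ?_)) (h5.trans ?_)
  · rw [mem_filter] at hi ⊢
    refine ⟨hi.1, fun hcon => hi.2 ?_⟩
    refine goodmod_of (B := B) (by omega) (by linarith) g1 hN2 hN4 hN5 ?_ hcon
    rw [hB]
    push_cast
    refine (abs_add_le _ _).trans ?_
    rw [abs_mul, Nat.abs_cast]
    have h6 : (((y i).val : ℕ) : ℝ) ≤ Q := by
      have : (y i).val < M := ZMod.val_lt _
      exact_mod_cast (by omega : (y i).val ≤ Q)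
    have h7 : |(κ : ℝ)| * (((y i).val : ℕ) : ℝ) ≤ |(κ : ℝ)| * Q := mul_le_mul_of_nonneg_left h6 (abs_nonneg _)
    have h8 : ((κ.natAbs : ℕ) : ℝ) = |(κ : ℝ)| := by rw [Nat.cast_natAbs, Int.cast_abs]
    rw [h8]
    linarith
  · apply div_le_div_of_nonneg_left (Nat.cast_nonneg _) (by positivity)
    exact pow_le_pow_left₀ (by linarith) hN2 _

open Classical in
/-- the values of polynomials -/
theorem poly_mult (d : ℕ) (hd : 1 ≤ d) (b A J W U : ℕ) (ε : ℝ) (hε : 0 < ε) :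
    ∃ C Q₀ : ℕ, ∀ Q : ℕ, Q₀ ≤ Q → ∀ (F : ℤ[X]) (K : ℕ), F.natDegree = d → |(F.leadingCoeff : ℝ)| ≤ Real.log Q ^ b →
      (Q : ℝ) ^ (1 / 3 : ℝ) * Real.log Q ^ C ≤ (K : ℝ) ^ d → (∀ k : ℕ, k < K → |F.eval (k : ℤ)| ≤ Q) →
      (((range K).filter fun k : ℕ => ¬ GoodMod ε A J W Q (F.eval (k : ℤ))).card : ℝ) ≤ K / Real.log Q ^ U := by
  obtain ⟨R, hR⟩ := gold_mult 1 1 A (J + 3 + W) W U J ε hε
  obtain ⟨C, hVC⟩ := zlaw_polyH law_all d hd b 1 one_ne_zero J (1 + 3) R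
  obtain ⟨N₀, hN₀⟩ := hR _ hVC
  obtain ⟨Q₁, h1⟩ := scale J
  obtain ⟨Q₂, h2⟩ := eventually_atTop.1 ((ev_logM W 1 one_pos).and ((tendsto_natCast_atTop_atTop (R := ℝ)).eventually
    (Real.tendsto_log_atTop.eventually_ge_atTop (((1 : ℕ) : ℝ) + 2 + 2 ^ C + 2 ^ J))))
  refine ⟨C + J + 4, Q₁ + Q₂ + N₀ + 3, fun Q hQ F K hF hlc hK hval => ?_⟩
  obtain ⟨g1, g2⟩ := h2 Q (by omega)
  obtain ⟨N, hN1, hN2, hN3, hN4, hN5⟩ := h1 Q (by omega)
  have hQ0 : (0 : ℝ) < Q := by exact_mod_cast (by omega : 0 < Q)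
  rw [one_mul] at g1
  have hC0 : (0 : ℝ) < 2 ^ C := by positivity
  have hJ0 : (0 : ℝ) < 2 ^ J := by positivity
  push_cast at g2
  have hl2 : 2 ≤ Real.log Q := by linarith
  have hL0 : 0 < Real.log N := by linarith
  have hdeg : (F + Polynomial.C (Q : ℤ)).natDegree = d := by rw [natDegree_add_C, hF]
  have hlc2 : (F + Polynomial.C (Q : ℤ)).leadingCoeff = F.leadingCoeff := by
    unfold leadingCoeff
    rw [hdeg, coeff_add, coeff_C_of_ne_zero (by omega), add_zero, hF]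
  have hev : ∀ k : ℕ, (F + Polynomial.C (Q : ℤ)).eval (k : ℤ) = F.eval (k : ℤ) + Q := fun k => by
    rw [eval_add, eval_C]
  have hval1 : ∀ k : ℕ, k < K → 0 ≤ (F + Polynomial.C (Q : ℤ)).eval (k : ℤ) ∧ (F + Polynomial.C (Q : ℤ)).eval (k : ℤ) ≤ 2 * Q := by
    intro k hk
    have h3 := abs_le.1 (hval k hk)
    rw [hev k]
    constructor <;> linarith
  have hval2 : ∀ k : ℕ, k < K → (((F + Polynomial.C (Q : ℤ)).eval (k : ℤ) : ℤ) : ℝ) * Real.log N ^ J ≤ N := by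
    intro k hk
    have h3 : (((F + Polynomial.C (Q : ℤ)).eval (k : ℤ) : ℤ) : ℝ) ≤ 2 * Q := by exact_mod_cast (hval1 k hk).2
    calc (((F + Polynomial.C (Q : ℤ)).eval (k : ℤ) : ℤ) : ℝ) * Real.log N ^ J ≤ (2 * Q) * Real.log Q ^ (J + 1) :=
          mul_le_mul h3 (cmp_pow J (by linarith) hN3 hL0.le) (by positivity) (by positivity)
      _ = Q * (2 * Real.log Q ^ (J + 1)) := by ring
      _ ≤ Q * Real.log Q ^ (J + 2) := by
          apply mul_le_mul_of_nonneg_left _ hQ0.le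
          rw [pow_succ (Real.log (Q : ℝ)) (J + 1)]
          have : 0 < Real.log Q ^ (J + 1) := by positivity
          nlinarith
      _ ≤ N := hN4
  have hpol : Pol2 d b C 1 N (F + Polynomial.C (Q : ℤ)) K := by
    refine ⟨hdeg, ?_, ?_, ?_⟩
    · rw [hlc2]
      exact hlc.trans (pow_le_pow_left₀ (by linarith) hN2 _)
    · exact (cmp_cbrt (by omega) (by linarith) (by linarith) hN2 hN3 hN5).trans hK
    · intro k hk
      refine ⟨(hval1 k hk).1, ?_⟩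
      have h3 : (((F + Polynomial.C (Q : ℤ)).eval (k : ℤ) : ℤ) : ℝ) ≤ N := by
        refine le_trans ?_ (hval2 k hk)
        apply le_mul_of_one_le_right (by exact_mod_cast (hval1 k hk).1)
        exact one_le_pow₀ (by linarith)
      have h4 : (F + Polynomial.C (Q : ℤ)).eval (k : ℤ) ≤ (N : ℤ) := by exact_mod_cast h3
      push_cast
      linarith
  have h5 := hN₀ N (by omega) (range K) (fun k : ℕ => ((F + Polynomial.C (Q : ℤ)).eval (k : ℤ)).toNat)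
    ((range K).image (fun k : ℕ => ((F + Polynomial.C (Q : ℤ)).eval (k : ℤ)).toNat)) (pd (F + Polynomial.C (Q : ℤ)) K)
    ⟨_, K, hpol, hval2, rfl, rfl⟩ (rep_pd (pol2_K hd (by omega) hpol)) (-(Q : ℤ)) (by
      push_cast
      rw [abs_neg, Nat.abs_cast, one_mul]
      calc (Q : ℝ) * Real.log N ^ J ≤ Q * Real.log Q ^ (J + 1) :=
            mul_le_mul le_rfl (cmp_pow J (by linarith) hN3 hL0.le) (by positivity) hQ0.le
        _ ≤ Q * Real.log Q ^ (J + 2) := by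
            apply mul_le_mul_of_nonneg_left _ hQ0.le
            exact pow_le_pow_right₀ (by linarith) (by omega)
        _ ≤ N := hN4)
  rw [card_range] at h5
  refine le_trans (Nat.cast_le.2 (card_le_card fun k hk => ?_)) (h5.trans ?_)
  · rw [mem_filter] at hk ⊢
    refine ⟨hk.1, fun hcon => hk.2 ?_⟩
    have hk1 := mem_range.1 hk.1
    have e1 : -(Q : ℤ) + 1 * ((((F + Polynomial.C (Q : ℤ)).eval (k : ℤ)).toNat : ℕ) : ℤ) = F.eval (k : ℤ) := by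
      rw [Int.toNat_of_nonneg (hval1 k hk1).1, hev k]
      ring
    rw [e1] at hcon
    refine goodmod_of (B := 1) (by omega) (by push_cast; linarith) g1 hN2 hN4 hN5 ?_ hcon
    push_cast
    rw [one_mul]
    exact_mod_cast hval k hk1
  · apply div_le_div_of_nonneg_left (Nat.cast_nonneg _) (by positivity)
    exact pow_le_pow_left₀ (by linarith) hN2 _

end Pool.Agent.Run7.h27.MK
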